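import Mathlib
import Pool.Agent.H774R4.Fin
import Pool.Agent.Helper292.ForceCH

/-!
# It is consistent that `C_p(X)` is perfectly normal and its square is not

The continuum hypothesis can be forced, and it gives a Tychonoff space `X` such that `C_p(X)` is
hereditarily Lindelof, hence perfectly normal, while `C_p(X) × C_p(X)` is not perfectly normal.
The forcing language is the one of `Pool.Agent.Helper292.ForceCH`: a sentence is represented by
the set of the conditions which force it, with the usual clauses for the connectives.
-/

set_option autoImplicit false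

open Cardinal Topology

namespace Pool.Agent.Results.MP_181197_gt.ConsistentlyNot

/-- (1) Some forcing notion forces, below every condition, that `ω₁` is preserved and that the
continuum hypothesis holds. (2) The continuum hypothesis implies that there is a Tychonoff space
`X` such that, for the topology of pointwise convergence, `C_p(X)` is hereditarily Lindelof,
normal, and all its closed subsets are `G_δ`, but the square `C_p(X) × C_p(X)` is not perfectly
normal. (3) So it implies the negation of the statement of the question. -/
theorem result :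
    (∃ (P : Type) (_ : Preorder P), Nonempty P ∧ ∀ p : P,
      p ∈ Pool.Agent.Helper292.ForceCH.OmegaOnePreserved P ∧
      p ∈ Pool.Agent.Helper292.ForceCH.CHHolds P) ∧
    ((𝔠 : Cardinal.{0}) = ℵ₁ →
      ∃ (X : Type) (_ : TopologicalSpace X), T35Space X ∧
        HereditarilyLindelofSpace {f : X → ℝ // Continuous f} ∧
        (NormalSpace {f : X → ℝ // Continuous f} ∧
          ∀ s : Set {f : X → ℝ // Continuous f}, IsClosed s → IsGδ s) ∧
        ¬ (NormalSpace ({f : X → ℝ // Continuous f} × {f : X → ℝ // Continuous f}) ∧
          ∀ s : Set ({f : X → ℝ // Continuous f} × {f : X → ℝ // Continuous f}),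
            IsClosed s → IsGδ s)) ∧
    ((𝔠 : Cardinal.{0}) = ℵ₁ →
      ¬ ∀ (X : Type) [TopologicalSpace X] [T35Space X],
        (NormalSpace {f : X → ℝ // Continuous f} ∧
          ∀ s : Set {f : X → ℝ // Continuous f}, IsClosed s → IsGδ s) →
        (NormalSpace ({f : X → ℝ // Continuous f} × {f : X → ℝ // Continuous f}) ∧
          ∀ s : Set ({f : X → ℝ // Continuous f} × {f : X → ℝ // Continuous f}),
            IsClosed s → IsGδ s)) := by
  refine ⟨?_, fun hCH => ?_, fun hCH hall => ?_⟩
  · obtain ⟨P, i, h1, h2⟩ := Pool.Agent.Helper292.ForceCH.exists_forcing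
    exact ⟨P, i, h1, fun p => ⟨(h2 p).1, (h2 p).2.2⟩⟩
  · obtain ⟨X, t, h1, h2, h3, _⟩ := Pool.Agent.H774R4.main hCH
    exact ⟨X, t, h1, h2.1, h2.2, h3⟩
  · obtain ⟨X, t, h1, h2, h3, _⟩ := Pool.Agent.H774R4.main hCH
    exact h3 (hall X h2.2)

end Pool.Agent.Results.MP_181197_gt.ConsistentlyNot
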